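import Pool.Agent.U405.EternalCore

/-!
A verified checker for the eternal vertex colouring game on graphs with vertex set `Fin n`.
-/

namespace U405.Eternal

theorem nbeq_false_iff {a b : ℕ} : Nat.beq a b = false ↔ a ≠ b := by
  rw [← Bool.not_eq_true, Nat.beq_eq]

theorem nble_false_iff {a b : ℕ} : Nat.ble a b = false ↔ ¬ a ≤ b := by
  rw [← Bool.not_eq_true, Nat.ble_eq]

/-- Encoding of an optional colour. -/
def code {k : ℕ} : Option (Fin k) → ℕ
  | none => 0
  | some c => c.val + 1

theorem code_inj {k : ℕ} {a b : Option (Fin k)} (h : code a = code b) : a = b := by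
  cases a <;> cases b <;> simp [code] at h ⊢
  exact Fin.ext h

/-- Transposition of two labels. -/
def swapN (x m y : ℕ) : ℕ := bif y.beq x then m else (bif y.beq m then x else y)

/-- Canonical relabelling by order of appearance. -/
def canonAux : ℕ → ℕ → ℕ → List ℕ → List ℕ
  | 0, _, _, l => l
  | f + 1, i, m, l =>
    bif Nat.ble m (l.getD i 0) then canonAux f (i + 1) (m + 1) (l.map (swapN (l.getD i 0) m))
    else canonAux f (i + 1) m l

structure St where
  b : Bool
  cols : List ℕ
  pk : List Bool

def beqN : List ℕ → List ℕ → Bool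
  | [], [] => true
  | a :: l, b :: m => a.beq b && beqN l m
  | _, _ => false

theorem beqN_eq : ∀ {l m : List ℕ}, beqN l m = true → l = m
  | [], [], _ => rfl
  | [], _ :: _, h => by simp [beqN] at h
  | _ :: _, [], h => by simp [beqN] at h
  | a :: l, b :: m, h => by
    simp only [beqN, Bool.and_eq_true] at h
    rw [Nat.eq_of_beq_eq_true h.1, beqN_eq h.2]

def beqB : List Bool → List Bool → Bool
  | [], [] => true
  | a :: l, b :: m => (a == b) && beqB l m
  | _, _ => false

theorem beqB_eq : ∀ {l m : List Bool}, beqB l m = true → l = m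
  | [], [], _ => rfl
  | [], _ :: _, h => by simp [beqB] at h
  | _ :: _, [], h => by simp [beqB] at h
  | a :: l, b :: m, h => by
    simp only [beqB, Bool.and_eq_true, beq_iff_eq] at h
    rw [h.1, beqB_eq h.2]

def St.eqb (s t : St) : Bool := (s.b == t.b) && (beqB s.pk t.pk && beqN s.cols t.cols)

theorem St.eqb_eq {s t : St} (h : s.eqb t = true) : s = t := by
  cases s; cases t
  simp only [St.eqb, Bool.and_eq_true, beq_iff_eq] at h
  obtain ⟨h1, h2, h3⟩ := h
  rw [h1, beqB_eq h2, beqN_eq h3]

section

variable (n : ℕ) (adj : ℕ → ℕ → Bool)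

def allowedL (s : St) (v c : ℕ) : Bool :=
  !((s.cols.getD v 0).beq c) && (List.range n).all fun w => !(adj v w) || !((s.cols.getD w 0).beq c)

def pkN (pk : List Bool) (v : ℕ) : List Bool :=
  bif (pk.set v true).all id then List.replicate n false else pk.set v true

def nxt (s : St) (v c : ℕ) : St :=
  ⟨!s.b, canonAux n 0 1 (s.cols.set v c), pkN n s.pk v⟩

def ok (T : List (St × ℕ)) (s : St) (f : ℕ → Bool) : Bool := T.any fun e => e.1.eqb s && f e.2

def checkU1 (k : ℕ) (T : List (St × ℕ)) (e : St × ℕ) : Bool :=
  Nat.ble 1000 e.2 || (Nat.ble 1 e.2 &&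
    (bif e.1.b then
      (List.range n).all fun v => e.1.pk.getD v false || (List.range k).all fun c =>
        !(allowedL n adj e.1 v (c+1)) || ok T (nxt n e.1 v (c+1)) (fun r => Nat.ble (r+1) e.2)
    else
      (List.range n).any fun v => !(e.1.pk.getD v false) &&
        (((List.range k).all fun c => !(allowedL n adj e.1 v (c+1))) ||
          ((List.range k).any fun c => allowedL n adj e.1 v (c+1) &&
            ok T (nxt n e.1 v (c+1)) (fun r => Nat.ble (r+1) e.2)))))

def checkL1 (k : ℕ) (T : List (St × ℕ)) (e : St × ℕ) : Bool :=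
  Nat.ble e.2 1 ||
    (bif e.1.b then
      (List.range n).any fun v => !(e.1.pk.getD v false) && (List.range k).any fun c =>
        allowedL n adj e.1 v (c+1) && ok T (nxt n e.1 v (c+1)) (fun r => Nat.ble e.2 (r+1))
    else
      (List.range n).all fun v => e.1.pk.getD v false ||
        (((List.range k).any fun c => allowedL n adj e.1 v (c+1)) &&
          ((List.range k).all fun c => !(allowedL n adj e.1 v (c+1)) ||
            ok T (nxt n e.1 v (c+1)) (fun r => Nat.ble e.2 (r+1)))))

def checkU (k : ℕ) (T : List (St × ℕ)) : Bool := T.all (checkU1 n adj k T)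
def checkL (k : ℕ) (T : List (St × ℕ)) : Bool := T.all (checkL1 n adj k T)

end

/-- The graph on `Fin n` given by a Boolean adjacency function. -/
def graphOf (n : ℕ) (adj : ℕ → ℕ → Bool) : SimpleGraph (Fin n) where
  Adj i j := i ≠ j ∧ (adj i j = true ∨ adj j i = true)
  symm := ⟨fun i j h => ⟨h.1.symm, h.2.symm⟩⟩
  loopless := ⟨fun i h => h.1 rfl⟩

section sound

variable {n k : ℕ} {adj : ℕ → ℕ → Bool}

structure RelC (p : Pos (Fin n) k) (l : List ℕ) : Prop where
  len : l.length = n
  val : ∀ i : Fin n, l.getD i 0 = code (p.col i)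

theorem RelC.canon : ∀ (f i m : ℕ) (l : List ℕ), 1 ≤ m → ∀ p : Pos (Fin n) k, RelC p l →
    ∃ σ, RelC (p.ren σ) (canonAux f i m l) := by
  intro f
  induction f with
  | zero =>
    intro i m l _ p h
    refine ⟨Equiv.refl _, ?_⟩
    have : p.ren (Equiv.refl _) = p := by
      cases p; simp [Pos.ren]
    rw [this]; exact h
  | succ f ih =>
    intro i m l hm p h
    unfold canonAux
    by_cases hx : Nat.ble m (l.getD i 0) = true
    · rw [hx, cond_true]
      have hmx : m ≤ l.getD i 0 := Nat.le_of_ble_eq_true hx
      have hin : i < n := by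
        by_contra hcon
        have : l.getD i 0 = 0 := by
          rw [List.getD_eq_default]
          rw [h.len]; omega
        omega
      have hv := h.val ⟨i, hin⟩
      simp only at hv
      rcases hc : p.col ⟨i, hin⟩ with _ | c
      · rw [hc] at hv
        simp only [code] at hv
        omega
      · rw [hc] at hv
        simp only [code] at hv
        have hck := c.isLt
        have hmk : m - 1 < k := by omega
        have hR : RelC (p.ren (Equiv.swap c ⟨m - 1, hmk⟩)) (l.map (swapN (l.getD i 0) m)) := by
          constructor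
          · rw [List.length_map]; exact h.len
          · intro j
            have hj := h.val j
            have hjl : (j : ℕ) < l.length := by rw [h.len]; exact j.isLt
            rw [List.getD_eq_getElem _ _ (by rw [List.length_map]; exact hjl), List.getElem_map,
              ← List.getD_eq_getElem l 0 hjl, hj, hv]
            rcases hd : p.col j with _ | d
            · simp only [Pos.ren, hd, Option.map_none, code, swapN]
              have h1 : Nat.beq 0 (c.val + 1) = false := by
                rw [nbeq_false_iff] <;> omega
              have h2 : Nat.beq 0 m = false := by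
                rw [nbeq_false_iff] <;> omega
              rw [h1, h2]; rfl
            · simp only [Pos.ren, hd, Option.map_some, code, swapN]
              by_cases h1 : d = c
              · subst h1
                have : Nat.beq (d.val + 1) (d.val + 1) = true := Nat.beq_refl _
                rw [this, cond_true, Equiv.swap_apply_left]
                simp only
                omega
              · have h1' : Nat.beq (d.val + 1) (c.val + 1) = false := by
                  rw [nbeq_false_iff]
                  intro hh
                  exact h1 (Fin.ext (by omega))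
                rw [h1', cond_false]
                by_cases h2 : d.val + 1 = m
                · have h2' : Nat.beq (d.val + 1) m = true := by rw [h2]; exact Nat.beq_refl _
                  have hd2 : d = ⟨m - 1, hmk⟩ := Fin.ext (by simp only; omega)
                  rw [h2', cond_true, hd2, Equiv.swap_apply_right]
                · have h2' : Nat.beq (d.val + 1) m = false := by
                    rw [nbeq_false_iff]; exact h2
                  rw [h2', cond_false, Equiv.swap_apply_of_ne_of_ne h1]
                  intro hh
                  rw [hh] at h2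
                  simp only at h2
                  omega
        obtain ⟨τ, hτ⟩ := ih (i + 1) (m + 1) _ (by omega) _ hR
        refine ⟨(Equiv.swap c ⟨m - 1, hmk⟩).trans τ, ?_⟩
        have : (p.ren (Equiv.swap c ⟨m - 1, hmk⟩)).ren τ =
            p.ren ((Equiv.swap c ⟨m - 1, hmk⟩).trans τ) := by
          simp [Pos.ren, Option.map_map, Equiv.coe_trans]
        rw [this] at hτ
        exact hτ
    · have hx' : Nat.ble m (l.getD i 0) = false := Bool.not_eq_true _ ▸ hx
      rw [hx', cond_false]
      exact ih (i + 1) m l hm p h

structure Rel (b : Bool) (p : Pos (Fin n) k) (s : St) : Prop where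
  turn : s.b = b
  cols : RelC p s.cols
  plen : s.pk.length = n
  pval : ∀ i : Fin n, s.pk.getD i false = true ↔ i ∈ p.picked

theorem Rel.allowed {b : Bool} {p : Pos (Fin n) k} {s : St} (h : Rel b p s)
    (hadj : ∀ i j : Fin n, adj i j = true ↔ (graphOf n adj).Adj i j) (v : Fin n) (c : Fin k) :
    allowedL n adj s v (c + 1) = true ↔ Allowed (graphOf n adj) p v c := by
  have hcol : ∀ w : Fin n, (!((s.cols.getD w 0).beq (c + 1))) = true ↔ p.col w ≠ some c := by
    intro w
    rw [h.cols.val w]
    have : (!(code (p.col w)).beq (c.val + 1)) = true ↔ ¬ (code (p.col w) = c.val + 1) := by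
      rw [Bool.not_eq_true', nbeq_false_iff]
    rw [this]
    apply not_congr
    constructor
    · intro hh
      exact code_inj hh
    · intro hh
      rw [hh]; rfl
  unfold allowedL Allowed
  rw [Bool.and_eq_true, hcol v, List.all_eq_true]
  apply and_congr Iff.rfl
  constructor
  · intro hh w hw
    have := hh w (List.mem_range.2 w.isLt)
    rw [Bool.or_eq_true] at this
    rcases this with h1 | h1
    · rw [Bool.not_eq_true'] at h1
      have := (hadj v w).2 hw
      rw [h1] at this
      exact absurd this (by simp)
    · exact (hcol w).1 h1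
  · intro hh w hw
    rw [List.mem_range] at hw
    rw [Bool.or_eq_true]
    by_cases hvw : adj v w = true
    · right
      exact (hcol ⟨w, hw⟩).2 (hh ⟨w, hw⟩ ((hadj v ⟨w, hw⟩).1 hvw))
    · left
      simpa using hvw

theorem Rel.next {b : Bool} {p : Pos (Fin n) k} {s : St} (h : Rel b p s) (v : Fin n) (c : Fin k) :
    ∃ σ, Rel (!b) ((p.move v c).ren σ) (nxt n s v (c + 1)) := by
  have hR : RelC (p.move v c) (s.cols.set v (c + 1)) := by
    constructor
    · rw [List.length_set]; exact h.cols.len
    · intro i
      have hil : (i : ℕ) < s.cols.length := by rw [h.cols.len]; exact i.isLt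
      rw [List.getD_eq_getElem _ _ (by rw [List.length_set]; exact hil), List.getElem_set]
      by_cases hvi : v = i
      · subst hvi
        simp [Pos.move, code]
      · have : ¬ ((v : ℕ) = i) := fun hh => hvi (Fin.ext hh)
        rw [if_neg this, ← List.getD_eq_getElem s.cols 0 hil, h.cols.val i]
        simp only [Pos.move]
        rw [Function.update_of_ne (fun hh => hvi hh.symm)]
  obtain ⟨σ, hσ⟩ := RelC.canon n 0 1 _ le_rfl _ hR
  have hset : ∀ i : Fin n, (s.pk.set v true).getD i false = true ↔ i ∈ insert v p.picked := by
    intro i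
    have hil : (i : ℕ) < s.pk.length := by rw [h.plen]; exact i.isLt
    rw [List.getD_eq_getElem _ _ (by rw [List.length_set]; exact hil), List.getElem_set]
    by_cases hvi : v = i
    · subst hvi
      simp
    · have : ¬ ((v : ℕ) = i) := fun hh => hvi (Fin.ext hh)
      rw [if_neg this, ← List.getD_eq_getElem s.pk false hil, h.pval i, Finset.mem_insert]
      constructor
      · exact fun hh => Or.inr hh
      · rintro (hh | hh)
        · exact absurd hh.symm hvi
        · exact hh
  have hall : (s.pk.set v true).all id = true ↔ insert v p.picked = Finset.univ := by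
    rw [List.all_eq_true, Finset.eq_univ_iff_forall]
    constructor
    · intro hh i
      rw [← hset i]
      have hil : (i : ℕ) < (s.pk.set v true).length := by rw [List.length_set, h.plen]; exact i.isLt
      rw [List.getD_eq_getElem _ _ hil]
      exact hh _ (List.getElem_mem hil)
    · intro hh x hx
      obtain ⟨j, hj, rfl⟩ := List.getElem_of_mem hx
      have hj' : j < n := by rw [List.length_set, h.plen] at hj; exact hj
      have := (hset ⟨j, hj'⟩).2 (hh ⟨j, hj'⟩)
      rw [List.getD_eq_getElem _ _ hj] at this
      exact this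
  refine ⟨σ, ?_, hσ, ?_, ?_⟩
  · simp [nxt, h.turn]
  · simp only [nxt, pkN]
    by_cases hc : (s.pk.set v true).all id = true
    · rw [hc, cond_true, List.length_replicate]
    · have hc' : (s.pk.set v true).all id = false := by simpa using hc
      rw [hc', cond_false, List.length_set]; exact h.plen
  · intro i
    simp only [nxt, pkN, Pos.ren, Pos.move]
    by_cases hc : (s.pk.set v true).all id = true
    · rw [hc, cond_true, if_pos (hall.1 hc)]
      simp
    · have hc' : (s.pk.set v true).all id = false := by simpa using hc
      rw [hc', cond_false, if_neg (fun hh => hc (hall.2 hh))]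
      exact hset i

theorem Rel.notPicked {b : Bool} {p : Pos (Fin n) k} {s : St} (h : Rel b p s) (v : Fin n) :
    s.pk.getD v false = false ↔ v ∉ p.picked := by
  rw [← h.pval v]; simp

theorem ok_iff {T : List (St × ℕ)} {s : St} {f : ℕ → Bool} (h : ok T s f = true) :
    ∃ e ∈ T, e.1 = s ∧ f e.2 = true := by
  unfold ok at h
  rw [List.any_eq_true] at h
  obtain ⟨e, he, h2⟩ := h
  rw [Bool.and_eq_true] at h2
  exact ⟨e, he, St.eqb_eq h2.1, h2.2⟩

theorem soundU {T : List (St × ℕ)} (hT : checkU n adj k T = true)
    (hadj : ∀ i j : Fin n, adj i j = true ↔ (graphOf n adj).Adj i j) :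
    ∀ t, ∀ e ∈ T, e.2 ≤ t → e.2 < 1000 → ∀ (b : Bool) (p : Pos (Fin n) k), Rel b p e.1 →
      BobWinsWithin (graphOf n adj) t b p := by
  intro t
  induction t with
  | zero =>
    intro e he h0 h1 b p _
    have h2 := (List.all_eq_true.1 hT) e he
    unfold checkU1 at h2
    have h3 : Nat.ble 1000 e.2 = false := by
      rw [Nat.le_zero.1 h0]; rfl
    have h4 : Nat.ble 1 e.2 = false := by
      rw [Nat.le_zero.1 h0]; rfl
    rw [h3, h4] at h2
    simp at h2
  | succ t ih =>
    intro e he h0 h1 b p hp
    have h2 := (List.all_eq_true.1 hT) e he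
    unfold checkU1 at h2
    have h3 : Nat.ble 1000 e.2 = false := by
      by_contra hcon
      have : Nat.ble 1000 e.2 = true := by simpa using hcon
      have := Nat.le_of_ble_eq_true this
      omega
    rw [h3, Bool.false_or, Bool.and_eq_true] at h2
    have h2 := h2.2
    have step : ∀ (v : Fin n) (c : Fin k),
        ok T (nxt n e.1 v (c + 1)) (fun r => Nat.ble (r + 1) e.2) = true →
        BobWinsWithin (graphOf n adj) t (!b) (p.move v c) := by
      intro v c hok
      obtain ⟨e', he', heq, hr⟩ := ok_iff hok
      have hr := Nat.le_of_ble_eq_true hr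
      obtain ⟨σ, hσ⟩ := hp.next v c
      rw [← heq] at hσ
      have := ih e' he' (by omega) (by omega) _ _ hσ
      exact bob_ren t _ _ σ this
    cases b with
    | true =>
      rw [hp.turn, cond_true, List.all_eq_true] at h2
      intro v hv c hc
      have h4 := h2 v (List.mem_range.2 v.isLt)
      rw [(hp.notPicked v).2 hv, Bool.false_or, List.all_eq_true] at h4
      have h5 := h4 c (List.mem_range.2 c.isLt)
      rw [(hp.allowed hadj v c).2 hc, Bool.not_true, Bool.false_or] at h5
      exact step v c h5
    | false =>
      rw [hp.turn, cond_false, List.any_eq_true] at h2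
      obtain ⟨v, hv, h4⟩ := h2
      rw [List.mem_range] at hv
      rw [Bool.and_eq_true, Bool.or_eq_true] at h4
      obtain ⟨h4, h5⟩ := h4
      refine ⟨⟨v, hv⟩, (hp.notPicked ⟨v, hv⟩).1 (by simpa using h4), ?_⟩
      rcases h5 with h5 | h5
      · left
        intro c hc
        rw [List.all_eq_true] at h5
        have h6 := h5 c (List.mem_range.2 c.isLt)
        rw [(hp.allowed hadj ⟨v, hv⟩ c).2 hc] at h6
        simp at h6
      · right
        rw [List.any_eq_true] at h5
        obtain ⟨c, hc, h6⟩ := h5
        rw [List.mem_range] at hc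
        rw [Bool.and_eq_true] at h6
        exact ⟨⟨c, hc⟩, (hp.allowed hadj ⟨v, hv⟩ ⟨c, hc⟩).1 h6.1, step ⟨v, hv⟩ ⟨c, hc⟩ h6.2⟩

theorem soundL {T : List (St × ℕ)} (hT : checkL n adj k T = true)
    (hadj : ∀ i j : Fin n, adj i j = true ↔ (graphOf n adj).Adj i j) :
    ∀ t, ∀ e ∈ T, t < e.2 → ∀ (b : Bool) (p : Pos (Fin n) k), Rel b p e.1 →
      ¬ BobWinsWithin (graphOf n adj) t b p := by
  intro t
  induction t with
  | zero =>
    intro e he h0 b p _ h
    exact h
  | succ t ih =>
    intro e he h0 b p hp h
    have h2 := (List.all_eq_true.1 hT) e he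
    unfold checkL1 at h2
    have h3 : Nat.ble e.2 1 = false := by
      by_contra hcon
      have : Nat.ble e.2 1 = true := by simpa using hcon
      have := Nat.le_of_ble_eq_true this
      omega
    rw [h3, Bool.false_or] at h2
    have step : ∀ (v : Fin n) (c : Fin k),
        ok T (nxt n e.1 v (c + 1)) (fun r => Nat.ble e.2 (r + 1)) = true →
        ¬ BobWinsWithin (graphOf n adj) t (!b) (p.move v c) := by
      intro v c hok
      obtain ⟨e', he', heq, hr⟩ := ok_iff hok
      have hr := Nat.le_of_ble_eq_true hr
      obtain ⟨σ, hσ⟩ := hp.next v c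
      rw [← heq] at hσ
      have := ih e' he' (by omega) _ _ hσ
      rwa [bob_ren_iff] at this
    cases b with
    | true =>
      rw [hp.turn, cond_true, List.any_eq_true] at h2
      obtain ⟨v, hv, h4⟩ := h2
      rw [List.mem_range] at hv
      rw [Bool.and_eq_true, List.any_eq_true] at h4
      obtain ⟨h4, c, hc, h5⟩ := h4
      rw [List.mem_range] at hc
      rw [Bool.and_eq_true] at h5
      refine step ⟨v, hv⟩ ⟨c, hc⟩ h5.2 (h ⟨v, hv⟩ ((hp.notPicked ⟨v, hv⟩).1 (by simpa using h4))
        ⟨c, hc⟩ ((hp.allowed hadj ⟨v, hv⟩ ⟨c, hc⟩).1 h5.1))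
    | false =>
      rw [hp.turn, cond_false, List.all_eq_true] at h2
      obtain ⟨v, hv, h'⟩ := h
      have h4 := h2 v (List.mem_range.2 v.isLt)
      rw [(hp.notPicked v).2 hv, Bool.false_or, Bool.and_eq_true] at h4
      rcases h' with h' | ⟨c, hc, h'⟩
      · rw [List.any_eq_true] at h4
        obtain ⟨⟨c, hc, h5⟩, _⟩ := h4
        rw [List.mem_range] at hc
        exact h' ⟨c, hc⟩ ((hp.allowed hadj v ⟨c, hc⟩).1 h5)
      · have h5 := h4.2
        rw [List.all_eq_true] at h5
        have h6 := h5 c (List.mem_range.2 c.isLt)
        rw [(hp.allowed hadj v c).2 hc, Bool.not_true, Bool.false_or] at h6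
        exact step v c h6 h'

end sound

end U405.Eternal
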