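import Mathlib

/-!
The eternal vertex colouring game: definitions, and a verified checker for small graphs.
-/

namespace U405.Eternal

/-- A position of the game: the current partial colouring (`none` means uncoloured) and the set
of vertices already picked in the current round. -/
structure Pos (V : Type*) (k : ℕ) where
  col : V → Option (Fin k)
  picked : Finset V

/-- The vertex `v` may receive the colour `c`: `c` is not the current colour of `v` (if any), and
no neighbour of `v` currently has colour `c`. -/
def Allowed {V : Type*} (G : SimpleGraph V) {k : ℕ} (p : Pos V k) (v : V) (c : Fin k) : Prop :=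
  p.col v ≠ some c ∧ ∀ w, G.Adj v w → p.col w ≠ some c

/-- The position after `v` has been given colour `c`. When all vertices have been picked, a new
round begins. -/
def Pos.move {V : Type*} [Fintype V] [DecidableEq V] {k : ℕ} (p : Pos V k) (v : V) (c : Fin k) :
    Pos V k :=
  { col := Function.update p.col v (some c)
    picked := if insert v p.picked = Finset.univ then ∅ else insert v p.picked }

/-- The initial position. -/
def start (V : Type*) (k : ℕ) : Pos V k := ⟨fun _ => none, ∅⟩

/-- `BobWinsWithin G t alice p`: from position `p`, with Alice to move iff `alice = true`, Bob can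
guarantee his win within the next `t` turns. Bob wins at the moment when the mover picks a vertex
without allowed colour. -/
def BobWinsWithin {V : Type*} [Fintype V] [DecidableEq V] (G : SimpleGraph V) {k : ℕ} :
    ℕ → Bool → Pos V k → Prop
  | 0, _, _ => False
  | t + 1, true, p => ∀ v, v ∉ p.picked → ∀ c, Allowed G p v c →
      BobWinsWithin G t false (p.move v c)
  | t + 1, false, p => ∃ v, v ∉ p.picked ∧ ((∀ c, ¬ Allowed G p v c) ∨
      ∃ c, Allowed G p v c ∧ BobWinsWithin G t true (p.move v c))

/-- Alice has a winning strategy in the game with `k` colours: there is a set `S` of positions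
(with the player to move), containing the initial one, such that Alice can always move inside `S`,
and at Bob's turns every vertex he may pick has an allowed colour and all his moves stay in `S`. -/
def AliceWins {V : Type*} [Fintype V] [DecidableEq V] (G : SimpleGraph V) (k : ℕ) : Prop :=
  ∃ S : Set (Bool × Pos V k), (true, start V k) ∈ S ∧
    (∀ p, (true, p) ∈ S → ∃ v, v ∉ p.picked ∧ ∃ c, Allowed G p v c ∧ (false, p.move v c) ∈ S) ∧
    (∀ p, (false, p) ∈ S → ∀ v, v ∉ p.picked → (∃ c, Allowed G p v c) ∧
      ∀ c, Allowed G p v c → (true, p.move v c) ∈ S)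

/-- The eternal game chromatic number. -/
noncomputable def eternalChromatic {V : Type*} [Fintype V] [DecidableEq V] (G : SimpleGraph V) :
    ℕ := sInf {k | AliceWins G k}

/-- `r(G, k)`: the least `r` such that Bob can guarantee his win during one of the rounds
`1, …, r` (each round has `|V|` turns; Alice takes the first turn of the game). -/
noncomputable def roundsNeeded {V : Type*} [Fintype V] [DecidableEq V] (G : SimpleGraph V)
    (k : ℕ) : ℕ := sInf {r | BobWinsWithin G (r * Fintype.card V) true (start V k)}

section General

variable {V : Type*} [Fintype V] [DecidableEq V] {G : SimpleGraph V} {k : ℕ}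

theorem not_aliceWins {t : ℕ} (h : BobWinsWithin G t true (start V k)) : ¬ AliceWins G k := by
  rintro ⟨S, hS, hA, hB⟩
  have key : ∀ t b (p : Pos V k), (b, p) ∈ S → ¬ BobWinsWithin G t b p := by
    intro t
    induction t with
    | zero => intro b p _ h; exact h
    | succ t ih =>
      intro b p hp h
      cases b with
      | true =>
        obtain ⟨v, hv, c, hc, hn⟩ := hA p hp
        exact ih _ _ hn (h v hv c hc)
      | false =>
        obtain ⟨v, hv, h'⟩ := h
        obtain ⟨⟨c, hc⟩, hn⟩ := hB p hp v hv
        rcases h' with h' | ⟨c', hc', h'⟩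
        · exact h' c hc
        · exact ih _ _ (hn c' hc') h'
  exact key t true _ hS h

theorem aliceWins_of_card_lt [Nonempty V] (hk : Fintype.card V < k) : AliceWins G k := by
  have hall : ∀ (p : Pos V k) (v : V), ∃ c, Allowed G p v c := by
    intro p v
    by_contra hcon
    have hsub : (Finset.univ : Finset (Fin k)).image some ⊆ Finset.univ.image p.col := by
      intro x hx
      simp only [Finset.mem_image, Finset.mem_univ, true_and] at hx ⊢
      obtain ⟨c, rfl⟩ := hx
      by_contra h2
      apply hcon
      refine ⟨c, fun h => h2 ⟨v, h⟩, fun w _ h => h2 ⟨w, h⟩⟩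
    have h1 := Finset.card_le_card hsub
    rw [Finset.card_image_of_injective _ (Option.some_injective _)] at h1
    have h2 := Finset.card_image_le (s := (Finset.univ : Finset V)) (f := p.col)
    simp at h1 h2
    omega
  have hne : (∅ : Finset V) ≠ Finset.univ := by
    intro h
    obtain ⟨v⟩ := ‹Nonempty V›
    have : v ∈ (∅ : Finset V) := by rw [h]; exact Finset.mem_univ _
    simp at this
  have hmove : ∀ (p : Pos V k) v c, (p.move v c).picked ≠ Finset.univ := by
    intro p v c
    unfold Pos.move
    dsimp only
    split_ifs with h
    · exact hne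
    · exact h
  refine ⟨{x | x.2.picked ≠ Finset.univ}, hne, ?_, ?_⟩
  · intro p hp
    have hp' : ∃ v, v ∉ p.picked := by
      by_contra hcon
      push Not at hcon
      exact hp (Finset.eq_univ_iff_forall.mpr hcon)
    obtain ⟨v, hv⟩ := hp'
    obtain ⟨c, hc⟩ := hall p v
    exact ⟨v, hv, c, hc, hmove p v c⟩
  · intro p hp v hv
    exact ⟨hall p v, fun c _ => hmove p v c⟩

/-- Renaming the colours. -/
def Pos.ren (p : Pos V k) (σ : Equiv.Perm (Fin k)) : Pos V k := ⟨fun v => (p.col v).map σ, p.picked⟩

theorem allowed_ren (p : Pos V k) (σ : Equiv.Perm (Fin k)) (v : V) (c : Fin k) :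
    Allowed G (p.ren σ) v (σ c) ↔ Allowed G p v c := by
  have key : ∀ w, (p.ren σ).col w = some (σ c) ↔ p.col w = some c := by
    intro w
    simp [Pos.ren]
  unfold Allowed
  simp only [ne_eq, key]

theorem move_ren (p : Pos V k) (σ : Equiv.Perm (Fin k)) (v : V) (c : Fin k) :
    (p.ren σ).move v (σ c) = (p.move v c).ren σ := by
  unfold Pos.move Pos.ren
  congr 1
  funext w
  by_cases h : w = v
  · subst h; simp
  · simp [Function.update_of_ne h]

theorem bob_ren (t : ℕ) : ∀ (b : Bool) (p : Pos V k) (σ : Equiv.Perm (Fin k)),
    BobWinsWithin G t b (p.ren σ) → BobWinsWithin G t b p := by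
  induction t with
  | zero => intro b p σ h; exact h
  | succ t ih =>
    intro b p σ h
    cases b with
    | true =>
      intro v hv c hc
      have h1 := h v hv (σ c) ((allowed_ren p σ v c).2 hc)
      rw [move_ren] at h1
      exact ih _ _ σ h1
    | false =>
      obtain ⟨v, hv, h'⟩ := h
      refine ⟨v, hv, ?_⟩
      rcases h' with h' | ⟨c, hc, h'⟩
      · left
        intro c hc
        exact h' (σ c) ((allowed_ren p σ v c).2 hc)
      · right
        have hc' : σ (σ.symm c) = c := Equiv.apply_symm_apply σ c
        rw [← hc'] at hc h'
        rw [move_ren] at h'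
        exact ⟨σ.symm c, (allowed_ren p σ v _).1 hc, ih _ _ σ h'⟩

theorem ren_ren_symm (p : Pos V k) (σ : Equiv.Perm (Fin k)) : (p.ren σ).ren σ.symm = p := by
  unfold Pos.ren
  cases p with
  | mk col picked =>
    simp only [Option.map_map]
    congr 1
    funext v
    have : (⇑σ.symm ∘ ⇑σ) = id := by funext x; simp
    rw [this]
    simp

theorem bob_ren_iff (t : ℕ) (b : Bool) (p : Pos V k) (σ : Equiv.Perm (Fin k)) :
    BobWinsWithin G t b (p.ren σ) ↔ BobWinsWithin G t b p := by
  constructor
  · exact bob_ren t b p σ
  · intro h
    apply bob_ren t b (p.ren σ) σ.symm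
    rw [ren_ren_symm]
    exact h

end General

end U405.Eternal
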