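import Pool.Agent.U405.EternalCheck

/-!
The fan `P₄ + K₁` with five colours: in the eternal vertex colouring game Bob wins, but he needs
six rounds.
-/

set_option maxRecDepth 100000

namespace U405.Eternal


/-- Adjacency of the fan: the vertex `0` is joined to the path `3 - 1 - 2 - 4`. -/
def fanAdj (i j : ℕ) : Bool :=
  bif Nat.beq i 0 then !(Nat.beq j 0) else
  bif Nat.beq j 0 then true else
  bif Nat.beq i 1 then (Nat.beq j 2 || Nat.beq j 3) else
  bif Nat.beq i 2 then (Nat.beq j 1 || Nat.beq j 4) else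
  bif Nat.beq i 3 then Nat.beq j 1 else
  Nat.beq j 2

def tU1 : List (St × ℕ) := [
  (⟨true, [0, 0, 0, 0, 0], [false, false, false, false, false]⟩, 2),
  (⟨false, [1, 0, 0, 0, 0], [true, false, false, false, false]⟩, 1),
  (⟨false, [0, 1, 0, 0, 0], [false, true, false, false, false]⟩, 1),
  (⟨false, [0, 0, 1, 0, 0], [false, false, true, false, false]⟩, 1),
  (⟨false, [0, 0, 0, 1, 0], [false, false, false, true, false]⟩, 1),
  (⟨false, [0, 0, 0, 0, 1], [false, false, false, false, true]⟩, 1)]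

def tU2 : List (St × ℕ) := [
  (⟨true, [0, 0, 0, 0, 0], [false, false, false, false, false]⟩, 4),
  (⟨false, [1, 0, 0, 0, 0], [true, false, false, false, false]⟩, 3),
  (⟨false, [0, 1, 0, 0, 0], [false, true, false, false, false]⟩, 3),
  (⟨false, [0, 0, 1, 0, 0], [false, false, true, false, false]⟩, 3),
  (⟨false, [0, 0, 0, 1, 0], [false, false, false, true, false]⟩, 3),
  (⟨false, [0, 0, 0, 0, 1], [false, false, false, false, true]⟩, 3),
  (⟨true, [1, 2, 0, 0, 0], [true, true, false, false, false]⟩, 2),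
  (⟨true, [1, 0, 2, 0, 0], [true, false, true, false, false]⟩, 2),
  (⟨true, [1, 0, 0, 2, 0], [true, false, false, true, false]⟩, 2),
  (⟨true, [1, 0, 0, 0, 2], [true, false, false, false, true]⟩, 2),
  (⟨false, [1, 2, 0, 0, 2], [true, true, false, false, true]⟩, 1),
  (⟨false, [1, 0, 2, 2, 0], [true, false, true, true, false]⟩, 1),
  (⟨false, [1, 0, 0, 2, 2], [true, false, false, true, true]⟩, 1)]

def tU3 : List (St × ℕ) := [
  (⟨true, [0, 0, 0, 0, 0], [false, false, false, false, false]⟩, 6),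
  (⟨false, [1, 0, 0, 0, 0], [true, false, false, false, false]⟩, 5),
  (⟨false, [0, 1, 0, 0, 0], [false, true, false, false, false]⟩, 4),
  (⟨false, [0, 0, 1, 0, 0], [false, false, true, false, false]⟩, 4),
  (⟨false, [0, 0, 0, 1, 0], [false, false, false, true, false]⟩, 4),
  (⟨false, [0, 0, 0, 0, 1], [false, false, false, false, true]⟩, 4),
  (⟨true, [1, 2, 0, 0, 0], [true, true, false, false, false]⟩, 4),
  (⟨true, [0, 1, 0, 2, 0], [false, true, false, true, false]⟩, 3),
  (⟨true, [0, 1, 0, 0, 2], [false, true, false, false, true]⟩, 3),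
  (⟨true, [0, 0, 1, 2, 0], [false, false, true, true, false]⟩, 3),
  (⟨false, [1, 2, 3, 0, 0], [true, true, true, false, false]⟩, 3),
  (⟨false, [1, 2, 0, 3, 0], [true, true, false, true, false]⟩, 2),
  (⟨false, [1, 2, 0, 0, 2], [true, true, false, false, true]⟩, 3),
  (⟨false, [1, 2, 0, 0, 3], [true, true, false, false, true]⟩, 1),
  (⟨false, [1, 0, 2, 3, 0], [true, false, true, true, false]⟩, 1),
  (⟨false, [0, 1, 2, 2, 0], [false, true, true, true, false]⟩, 2),
  (⟨false, [0, 1, 2, 3, 0], [false, true, true, true, false]⟩, 1),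
  (⟨false, [0, 1, 2, 0, 3], [false, true, true, false, true]⟩, 1),
  (⟨false, [0, 1, 0, 2, 1], [false, true, false, true, true]⟩, 2),
  (⟨false, [0, 1, 0, 2, 2], [false, true, false, true, true]⟩, 2),
  (⟨false, [0, 1, 0, 2, 3], [false, true, false, true, true]⟩, 1),
  (⟨false, [0, 0, 1, 2, 2], [false, false, true, true, true]⟩, 2),
  (⟨false, [0, 0, 1, 2, 3], [false, false, true, true, true]⟩, 1),
  (⟨true, [1, 2, 3, 0, 2], [true, true, true, false, true]⟩, 2),
  (⟨true, [1, 2, 0, 3, 3], [true, true, false, true, true]⟩, 1),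
  (⟨true, [1, 0, 2, 3, 3], [true, false, true, true, true]⟩, 1),
  (⟨true, [0, 1, 2, 2, 3], [false, true, true, true, true]⟩, 1),
  (⟨true, [0, 1, 2, 3, 1], [false, true, true, true, true]⟩, 1),
  (⟨false, [1, 2, 3, 3, 2], [false, false, false, false, false]⟩, 1)]

def tU4 : List (St × ℕ) := [
  (⟨true, [0, 0, 0, 0, 0], [false, false, false, false, false]⟩, 8),
  (⟨false, [1, 0, 0, 0, 0], [true, false, false, false, false]⟩, 7),
  (⟨false, [0, 1, 0, 0, 0], [false, true, false, false, false]⟩, 5),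
  (⟨false, [0, 0, 1, 0, 0], [false, false, true, false, false]⟩, 5),
  (⟨false, [0, 0, 0, 1, 0], [false, false, false, true, false]⟩, 5),
  (⟨false, [0, 0, 0, 0, 1], [false, false, false, false, true]⟩, 5),
  (⟨true, [1, 2, 0, 0, 0], [true, true, false, false, false]⟩, 6),
  (⟨true, [0, 1, 2, 0, 0], [false, true, true, false, false]⟩, 4),
  (⟨true, [0, 1, 0, 2, 0], [false, true, false, true, false]⟩, 4),
  (⟨true, [0, 1, 0, 0, 2], [false, true, false, false, true]⟩, 4),
  (⟨false, [1, 2, 3, 0, 0], [true, true, true, false, false]⟩, 3),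
  (⟨false, [1, 2, 0, 3, 0], [true, true, false, true, false]⟩, 3),
  (⟨false, [1, 2, 0, 0, 2], [true, true, false, false, true]⟩, 5),
  (⟨false, [1, 2, 0, 0, 3], [true, true, false, false, true]⟩, 3),
  (⟨false, [0, 1, 2, 2, 0], [false, true, true, true, false]⟩, 3),
  (⟨false, [0, 1, 2, 3, 0], [false, true, true, true, false]⟩, 2),
  (⟨false, [0, 1, 2, 0, 1], [false, true, true, false, true]⟩, 3),
  (⟨false, [0, 1, 2, 0, 3], [false, true, true, false, true]⟩, 2),
  (⟨false, [0, 1, 0, 2, 1], [false, true, false, true, true]⟩, 3),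
  (⟨false, [0, 1, 0, 2, 2], [false, true, false, true, true]⟩, 3),
  (⟨false, [0, 1, 0, 2, 3], [false, true, false, true, true]⟩, 2),
  (⟨true, [1, 2, 3, 4, 0], [true, true, true, true, false]⟩, 2),
  (⟨true, [1, 2, 3, 0, 2], [true, true, true, false, true]⟩, 4),
  (⟨true, [1, 2, 0, 3, 3], [true, true, false, true, true]⟩, 2),
  (⟨true, [0, 1, 2, 2, 3], [false, true, true, true, true]⟩, 2),
  (⟨true, [0, 1, 2, 3, 1], [false, true, true, true, true]⟩, 2),
  (⟨true, [0, 1, 2, 3, 4], [false, true, true, true, true]⟩, 1),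
  (⟨false, [1, 2, 3, 3, 2], [false, false, false, false, false]⟩, 3),
  (⟨false, [1, 2, 3, 3, 4], [false, false, false, false, false]⟩, 1),
  (⟨false, [1, 2, 3, 4, 2], [false, false, false, false, false]⟩, 1),
  (⟨false, [1, 2, 3, 4, 4], [false, false, false, false, false]⟩, 1),
  (⟨true, [1, 2, 3, 3, 2], [true, false, false, false, false]⟩, 2),
  (⟨false, [1, 2, 3, 3, 4], [true, true, false, false, false]⟩, 1),
  (⟨false, [1, 2, 3, 4, 2], [true, false, true, false, false]⟩, 1),
  (⟨false, [1, 2, 3, 4, 2], [true, false, false, true, false]⟩, 1),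
  (⟨false, [1, 2, 3, 3, 4], [true, false, false, false, true]⟩, 1)]

def tU5 : List (St × ℕ) := [
  (⟨true, [0, 0, 0, 0, 0], [false, false, false, false, false]⟩, 26),
  (⟨false, [1, 0, 0, 0, 0], [true, false, false, false, false]⟩, 25),
  (⟨false, [0, 1, 0, 0, 0], [false, true, false, false, false]⟩, 15),
  (⟨false, [0, 0, 1, 0, 0], [false, false, true, false, false]⟩, 15),
  (⟨false, [0, 0, 0, 1, 0], [false, false, false, true, false]⟩, 15),
  (⟨false, [0, 0, 0, 0, 1], [false, false, false, false, true]⟩, 15),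
  (⟨true, [1, 2, 0, 0, 0], [true, true, false, false, false]⟩, 24),
  (⟨true, [0, 1, 0, 0, 2], [false, true, false, false, true]⟩, 14),
  (⟨true, [0, 0, 1, 2, 0], [false, false, true, true, false]⟩, 14),
  (⟨false, [1, 2, 3, 0, 0], [true, true, true, false, false]⟩, 23),
  (⟨false, [1, 2, 0, 3, 0], [true, true, false, true, false]⟩, 13),
  (⟨false, [1, 2, 0, 0, 2], [true, true, false, false, true]⟩, 23),
  (⟨false, [1, 2, 0, 0, 3], [true, true, false, false, true]⟩, 13),
  (⟨false, [1, 0, 2, 3, 0], [true, false, true, true, false]⟩, 13),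
  (⟨false, [0, 1, 2, 3, 0], [false, true, true, true, false]⟩, 3),
  (⟨false, [0, 1, 2, 0, 3], [false, true, true, false, true]⟩, 3),
  (⟨false, [0, 1, 0, 2, 2], [false, true, false, true, true]⟩, 13),
  (⟨false, [0, 1, 0, 2, 3], [false, true, false, true, true]⟩, 3),
  (⟨false, [0, 0, 1, 2, 2], [false, false, true, true, true]⟩, 13),
  (⟨false, [0, 0, 1, 2, 3], [false, false, true, true, true]⟩, 3),
  (⟨true, [1, 2, 3, 0, 2], [true, true, true, false, true]⟩, 22),
  (⟨true, [1, 2, 0, 3, 3], [true, true, false, true, true]⟩, 12),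
  (⟨true, [1, 0, 2, 3, 3], [true, false, true, true, true]⟩, 12),
  (⟨true, [0, 1, 2, 3, 4], [false, true, true, true, true]⟩, 2),
  (⟨false, [1, 2, 3, 3, 2], [false, false, false, false, false]⟩, 21),
  (⟨false, [1, 2, 3, 4, 2], [false, false, false, false, false]⟩, 21),
  (⟨false, [1, 2, 3, 4, 4], [false, false, false, false, false]⟩, 11),
  (⟨false, [1, 2, 3, 4, 5], [false, false, false, false, false]⟩, 1),
  (⟨true, [1, 2, 3, 3, 2], [true, false, false, false, false]⟩, 20),
  (⟨true, [1, 2, 3, 4, 2], [true, false, false, false, false]⟩, 20),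
  (⟨true, [1, 2, 3, 3, 4], [false, false, false, true, false]⟩, 10),
  (⟨false, [1, 2, 3, 3, 4], [true, true, false, false, false]⟩, 19),
  (⟨false, [1, 2, 3, 4, 2], [true, false, true, false, false]⟩, 19),
  (⟨false, [1, 2, 3, 4, 2], [true, false, false, true, false]⟩, 19),
  (⟨false, [1, 2, 3, 3, 4], [true, false, false, false, true]⟩, 19),
  (⟨false, [1, 2, 3, 4, 5], [true, true, false, false, false]⟩, 19),
  (⟨false, [1, 2, 3, 3, 2], [true, false, true, false, false]⟩, 19),
  (⟨false, [1, 2, 3, 3, 2], [true, false, false, true, false]⟩, 19),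
  (⟨false, [1, 2, 3, 4, 4], [true, false, false, false, true]⟩, 19),
  (⟨false, [1, 2, 3, 4, 5], [true, false, false, false, true]⟩, 19),
  (⟨false, [1, 2, 3, 3, 4], [false, true, false, true, false]⟩, 9),
  (⟨false, [1, 2, 3, 3, 4], [false, false, false, true, true]⟩, 9),
  (⟨false, [1, 2, 3, 3, 4], [true, false, false, true, false]⟩, 9),
  (⟨false, [1, 2, 3, 4, 5], [false, false, true, true, false]⟩, 1),
  (⟨false, [1, 2, 3, 3, 2], [false, true, false, true, false]⟩, 9),
  (⟨false, [1, 2, 3, 3, 2], [false, false, false, true, true]⟩, 9),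
  (⟨true, [1, 2, 3, 4, 5], [true, true, true, false, false]⟩, 18),
  (⟨true, [1, 2, 3, 4, 5], [true, true, false, true, false]⟩, 18),
  (⟨true, [1, 2, 3, 3, 2], [true, true, false, false, true]⟩, 18),
  (⟨true, [1, 2, 3, 3, 4], [true, true, true, false, false]⟩, 18),
  (⟨true, [1, 2, 3, 3, 4], [true, true, false, true, false]⟩, 18),
  (⟨true, [1, 2, 3, 4, 2], [true, true, false, false, true]⟩, 18),
  (⟨true, [1, 2, 3, 4, 4], [true, true, false, false, true]⟩, 18),
  (⟨true, [1, 2, 3, 3, 4], [false, true, false, true, true]⟩, 8),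
  (⟨true, [1, 2, 3, 3, 2], [true, true, false, true, false]⟩, 8),
  (⟨false, [1, 2, 3, 3, 4], [true, true, true, true, false]⟩, 17),
  (⟨false, [1, 2, 3, 4, 4], [true, true, true, true, false]⟩, 7),
  (⟨false, [1, 2, 3, 4, 2], [true, true, true, false, true]⟩, 17),
  (⟨false, [1, 2, 3, 4, 4], [true, true, true, false, true]⟩, 7),
  (⟨false, [1, 2, 3, 4, 2], [true, true, false, true, true]⟩, 17),
  (⟨false, [1, 2, 3, 4, 5], [true, true, false, true, true]⟩, 17),
  (⟨false, [1, 2, 3, 4, 4], [true, true, false, true, true]⟩, 17),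
  (⟨false, [1, 2, 3, 4, 5], [true, true, true, true, false]⟩, 17),
  (⟨false, [1, 2, 3, 4, 5], [false, true, true, true, true]⟩, 1),
  (⟨false, [1, 2, 3, 4, 2], [true, true, true, true, false]⟩, 7),
  (⟨false, [1, 2, 3, 3, 2], [true, true, true, false, true]⟩, 17),
  (⟨false, [1, 2, 3, 3, 4], [true, true, true, false, true]⟩, 7),
  (⟨false, [1, 2, 3, 3, 2], [true, true, false, true, true]⟩, 17),
  (⟨false, [1, 2, 3, 3, 4], [true, true, false, true, true]⟩, 7),
  (⟨true, [1, 2, 3, 3, 4], [false, false, false, false, false]⟩, 16),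
  (⟨true, [1, 2, 3, 4, 2], [false, false, false, false, false]⟩, 16),
  (⟨true, [1, 2, 3, 4, 5], [false, false, false, false, false]⟩, 6),
  (⟨true, [1, 2, 3, 4, 4], [false, false, false, false, false]⟩, 16),
  (⟨false, [1, 2, 3, 3, 4], [false, true, false, false, false]⟩, 15),
  (⟨false, [1, 2, 3, 4, 2], [false, false, true, false, false]⟩, 15),
  (⟨false, [1, 2, 3, 4, 2], [false, false, false, true, false]⟩, 15),
  (⟨false, [1, 2, 3, 3, 4], [false, false, false, false, true]⟩, 15),
  (⟨false, [1, 2, 3, 3, 4], [true, false, false, false, false]⟩, 15),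
  (⟨false, [1, 2, 3, 3, 2], [false, true, false, false, false]⟩, 15),
  (⟨false, [1, 2, 3, 4, 5], [false, false, true, false, false]⟩, 1),
  (⟨false, [1, 2, 3, 4, 4], [false, false, false, true, false]⟩, 5),
  (⟨false, [1, 2, 3, 4, 5], [false, false, false, true, false]⟩, 1),
  (⟨false, [1, 2, 3, 3, 2], [false, false, false, false, true]⟩, 15),
  (⟨false, [1, 2, 3, 4, 2], [true, false, false, false, false]⟩, 15),
  (⟨false, [1, 2, 3, 4, 5], [false, true, false, false, false]⟩, 1),
  (⟨false, [1, 2, 3, 3, 2], [false, false, true, false, false]⟩, 15),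
  (⟨false, [1, 2, 3, 3, 2], [false, false, false, true, false]⟩, 15),
  (⟨false, [1, 2, 3, 4, 4], [false, false, false, false, true]⟩, 5),
  (⟨false, [1, 2, 3, 4, 5], [false, false, false, false, true]⟩, 1),
  (⟨false, [1, 2, 3, 4, 2], [false, true, false, false, false]⟩, 5),
  (⟨false, [1, 2, 3, 3, 4], [false, false, true, false, false]⟩, 5),
  (⟨false, [1, 2, 3, 3, 4], [false, false, false, true, false]⟩, 5),
  (⟨false, [1, 2, 3, 4, 2], [false, false, false, false, true]⟩, 5),
  (⟨false, [1, 2, 3, 4, 4], [true, false, false, false, false]⟩, 5),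
  (⟨false, [1, 2, 3, 4, 4], [false, true, false, false, false]⟩, 15),
  (⟨false, [1, 2, 3, 4, 4], [false, false, true, false, false]⟩, 15),
  (⟨true, [1, 2, 3, 3, 4], [false, true, false, false, true]⟩, 14),
  (⟨true, [1, 2, 3, 4, 2], [false, false, true, true, false]⟩, 14),
  (⟨true, [1, 2, 3, 3, 2], [true, true, false, false, false]⟩, 14),
  (⟨true, [1, 2, 3, 4, 4], [false, false, true, true, false]⟩, 4),
  (⟨true, [1, 2, 3, 3, 2], [true, false, true, false, false]⟩, 14),
  (⟨true, [1, 2, 3, 4, 4], [false, true, false, false, true]⟩, 4),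
  (⟨true, [1, 2, 3, 4, 5], [false, true, false, false, true]⟩, 14),
  (⟨true, [1, 2, 3, 4, 5], [false, false, true, true, false]⟩, 14),
  (⟨true, [1, 2, 3, 3, 4], [true, false, false, true, false]⟩, 4),
  (⟨true, [1, 2, 3, 4, 2], [true, false, false, false, true]⟩, 4),
  (⟨false, [1, 2, 3, 3, 4], [true, true, false, false, true]⟩, 13),
  (⟨false, [1, 2, 3, 4, 2], [true, false, true, true, false]⟩, 13),
  (⟨false, [1, 2, 3, 4, 4], [false, true, true, true, false]⟩, 2),
  (⟨false, [1, 2, 3, 4, 4], [false, true, true, false, true]⟩, 2),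
  (⟨false, [1, 2, 3, 4, 5], [false, true, false, true, true]⟩, 1),
  (⟨false, [1, 2, 3, 4, 4], [false, true, false, true, true]⟩, 13),
  (⟨false, [1, 2, 3, 4, 5], [false, true, true, false, true]⟩, 1),
  (⟨false, [1, 2, 3, 4, 5], [false, true, true, true, false]⟩, 1),
  (⟨false, [1, 2, 3, 4, 4], [false, false, true, true, true]⟩, 13),
  (⟨false, [1, 2, 3, 4, 5], [false, false, true, true, true]⟩, 1),
  (⟨false, [1, 2, 3, 4, 2], [true, true, true, false, false]⟩, 13),
  (⟨false, [1, 2, 3, 4, 2], [true, true, false, true, false]⟩, 13),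
  (⟨false, [1, 2, 3, 4, 4], [true, false, true, true, false]⟩, 3),
  (⟨false, [1, 2, 3, 4, 2], [true, false, true, false, true]⟩, 3),
  (⟨false, [1, 2, 3, 4, 2], [true, false, false, true, true]⟩, 3),
  (⟨false, [1, 2, 3, 4, 2], [false, true, true, true, false]⟩, 2),
  (⟨false, [1, 2, 3, 4, 2], [false, false, true, true, true]⟩, 2),
  (⟨false, [1, 2, 3, 3, 4], [true, true, true, false, false]⟩, 13),
  (⟨false, [1, 2, 3, 3, 4], [true, true, false, true, false]⟩, 3),
  (⟨false, [1, 2, 3, 4, 4], [true, true, false, false, true]⟩, 3),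
  (⟨false, [1, 2, 3, 3, 4], [true, false, true, false, true]⟩, 13),
  (⟨false, [1, 2, 3, 3, 4], [true, false, false, true, true]⟩, 3),
  (⟨false, [1, 2, 3, 3, 4], [false, true, true, false, true]⟩, 2),
  (⟨false, [1, 2, 3, 3, 4], [false, true, false, true, true]⟩, 2),
  (⟨false, [1, 2, 3, 3, 2], [true, true, false, true, false]⟩, 3),
  (⟨false, [1, 2, 3, 4, 5], [true, true, false, false, true]⟩, 3),
  (⟨false, [1, 2, 3, 4, 5], [true, false, true, true, false]⟩, 3),
  (⟨false, [1, 2, 3, 3, 2], [true, false, true, false, true]⟩, 3),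
  (⟨false, [1, 2, 3, 3, 2], [true, false, false, true, true]⟩, 3),
  (⟨true, [1, 2, 3, 4, 4], [true, true, false, true, true]⟩, 12),
  (⟨true, [1, 2, 3, 4, 4], [true, false, true, true, true]⟩, 12),
  (⟨true, [1, 2, 3, 4, 5], [false, true, true, true, true]⟩, 1),
  (⟨true, [1, 2, 3, 4, 2], [true, true, true, true, false]⟩, 12),
  (⟨true, [1, 2, 3, 4, 2], [true, false, true, true, true]⟩, 2),
  (⟨true, [1, 2, 3, 3, 4], [true, true, true, false, true]⟩, 12),
  (⟨true, [1, 2, 3, 3, 4], [true, true, false, true, true]⟩, 2)]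

def tL5 : List (St × ℕ) := [
  (⟨true, [0, 0, 0, 0, 0], [false, false, false, false, false]⟩, 26),
  (⟨false, [1, 0, 0, 0, 0], [true, false, false, false, false]⟩, 25),
  (⟨true, [1, 2, 0, 0, 0], [true, true, false, false, false]⟩, 24),
  (⟨true, [1, 0, 2, 0, 0], [true, false, true, false, false]⟩, 24),
  (⟨true, [1, 0, 0, 2, 0], [true, false, false, true, false]⟩, 24),
  (⟨true, [1, 0, 0, 0, 2], [true, false, false, false, true]⟩, 24),
  (⟨false, [1, 2, 0, 0, 2], [true, true, false, false, true]⟩, 23),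
  (⟨false, [1, 0, 2, 2, 0], [true, false, true, true, false]⟩, 23),
  (⟨true, [1, 2, 3, 3, 0], [true, true, true, true, false]⟩, 22),
  (⟨true, [1, 2, 3, 0, 2], [true, true, true, false, true]⟩, 22),
  (⟨true, [1, 2, 0, 3, 2], [true, true, false, true, true]⟩, 22),
  (⟨true, [1, 0, 2, 2, 3], [true, false, true, true, true]⟩, 22),
  (⟨false, [1, 2, 3, 3, 2], [false, false, false, false, false]⟩, 21),
  (⟨false, [1, 2, 3, 3, 4], [false, false, false, false, false]⟩, 21),
  (⟨false, [1, 2, 3, 4, 2], [false, false, false, false, false]⟩, 21),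
  (⟨false, [1, 2, 3, 4, 4], [false, false, false, false, false]⟩, 11),
  (⟨false, [1, 2, 3, 4, 5], [false, false, false, false, false]⟩, 1),
  (⟨true, [1, 2, 3, 3, 2], [true, false, false, false, false]⟩, 20),
  (⟨true, [1, 2, 3, 3, 4], [false, true, false, false, false]⟩, 20),
  (⟨true, [1, 2, 3, 4, 2], [false, false, true, false, false]⟩, 20),
  (⟨true, [1, 2, 3, 4, 2], [false, false, false, true, false]⟩, 20),
  (⟨true, [1, 2, 3, 3, 4], [false, false, false, false, true]⟩, 20),
  (⟨true, [1, 2, 3, 3, 4], [true, false, false, false, false]⟩, 20),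
  (⟨true, [1, 2, 3, 3, 2], [false, true, false, false, false]⟩, 20),
  (⟨true, [1, 2, 3, 4, 5], [false, false, true, false, false]⟩, 20),
  (⟨true, [1, 2, 3, 4, 4], [false, false, false, true, false]⟩, 20),
  (⟨true, [1, 2, 3, 4, 5], [false, false, false, true, false]⟩, 20),
  (⟨true, [1, 2, 3, 3, 2], [false, false, false, false, true]⟩, 20),
  (⟨true, [1, 2, 3, 4, 2], [true, false, false, false, false]⟩, 20),
  (⟨true, [1, 2, 3, 4, 5], [false, true, false, false, false]⟩, 20),
  (⟨true, [1, 2, 3, 3, 2], [false, false, true, false, false]⟩, 20),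
  (⟨true, [1, 2, 3, 3, 2], [false, false, false, true, false]⟩, 20),
  (⟨true, [1, 2, 3, 4, 4], [false, false, false, false, true]⟩, 20),
  (⟨true, [1, 2, 3, 4, 5], [false, false, false, false, true]⟩, 20),
  (⟨true, [1, 2, 3, 4, 4], [true, false, false, false, false]⟩, 20),
  (⟨true, [1, 2, 3, 4, 4], [false, true, false, false, false]⟩, 20),
  (⟨true, [1, 2, 3, 4, 4], [false, false, true, false, false]⟩, 20),
  (⟨true, [1, 2, 3, 3, 4], [false, false, false, true, false]⟩, 10),
  (⟨true, [1, 2, 3, 4, 2], [false, false, false, false, true]⟩, 10),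
  (⟨false, [1, 2, 3, 3, 4], [true, true, false, false, false]⟩, 19),
  (⟨false, [1, 2, 3, 4, 2], [true, false, true, false, false]⟩, 19),
  (⟨false, [1, 2, 3, 4, 2], [true, false, false, true, false]⟩, 19),
  (⟨false, [1, 2, 3, 3, 4], [true, false, false, false, true]⟩, 19),
  (⟨false, [1, 2, 3, 4, 4], [true, false, false, true, false]⟩, 19),
  (⟨false, [1, 2, 3, 3, 2], [true, false, false, false, true]⟩, 19),
  (⟨false, [1, 2, 3, 4, 2], [false, true, true, false, false]⟩, 19),
  (⟨false, [1, 2, 3, 4, 2], [false, true, false, true, false]⟩, 19),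
  (⟨false, [1, 2, 3, 3, 2], [true, false, true, false, false]⟩, 19),
  (⟨false, [1, 2, 3, 3, 2], [true, false, false, true, false]⟩, 19),
  (⟨false, [1, 2, 3, 4, 4], [true, false, false, false, true]⟩, 19),
  (⟨false, [1, 2, 3, 4, 2], [false, true, false, false, true]⟩, 19),
  (⟨false, [1, 2, 3, 4, 4], [true, false, true, false, false]⟩, 19),
  (⟨false, [1, 2, 3, 3, 4], [true, false, false, true, false]⟩, 9),
  (⟨false, [1, 2, 3, 4, 2], [true, false, false, false, true]⟩, 9),
  (⟨true, [1, 2, 3, 4, 5], [true, true, true, false, false]⟩, 18),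
  (⟨true, [1, 2, 3, 4, 4], [true, true, false, true, false]⟩, 18),
  (⟨true, [1, 2, 3, 4, 5], [true, true, false, true, false]⟩, 18),
  (⟨true, [1, 2, 3, 3, 2], [true, true, false, false, true]⟩, 18),
  (⟨true, [1, 2, 3, 3, 4], [true, true, false, false, true]⟩, 18),
  (⟨true, [1, 2, 3, 3, 2], [true, false, true, true, false]⟩, 18),
  (⟨true, [1, 2, 3, 4, 2], [true, false, true, true, false]⟩, 18),
  (⟨true, [1, 2, 3, 4, 4], [true, false, true, false, true]⟩, 18),
  (⟨true, [1, 2, 3, 4, 5], [true, false, true, false, true]⟩, 18),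
  (⟨true, [1, 2, 3, 4, 4], [true, false, false, true, true]⟩, 18),
  (⟨true, [1, 2, 3, 4, 5], [true, false, false, true, true]⟩, 18),
  (⟨true, [1, 2, 3, 4, 2], [false, true, true, false, true]⟩, 28),
  (⟨true, [1, 2, 3, 4, 4], [false, true, true, false, true]⟩, 18),
  (⟨true, [1, 2, 3, 4, 2], [false, true, false, true, true]⟩, 28),
  (⟨true, [1, 2, 3, 4, 5], [false, true, false, true, true]⟩, 18),
  (⟨true, [1, 2, 3, 4, 4], [false, true, false, true, true]⟩, 18),
  (⟨true, [1, 2, 3, 4, 5], [false, true, true, false, true]⟩, 18),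
  (⟨true, [1, 2, 3, 4, 2], [true, true, true, false, false]⟩, 18),
  (⟨true, [1, 2, 3, 4, 2], [true, true, false, true, false]⟩, 18),
  (⟨true, [1, 2, 3, 3, 4], [true, false, true, true, false]⟩, 18),
  (⟨true, [1, 2, 3, 4, 4], [true, false, true, true, false]⟩, 18),
  (⟨true, [1, 2, 3, 4, 2], [true, false, true, false, true]⟩, 18),
  (⟨true, [1, 2, 3, 4, 2], [true, false, false, true, true]⟩, 18),
  (⟨true, [1, 2, 3, 3, 2], [false, true, true, true, false]⟩, 18),
  (⟨true, [1, 2, 3, 4, 2], [false, true, true, true, false]⟩, 18),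
  (⟨true, [1, 2, 3, 3, 4], [true, true, true, false, false]⟩, 18),
  (⟨true, [1, 2, 3, 3, 4], [true, true, false, true, false]⟩, 18),
  (⟨true, [1, 2, 3, 4, 2], [true, true, false, false, true]⟩, 18),
  (⟨true, [1, 2, 3, 4, 4], [true, true, false, false, true]⟩, 18),
  (⟨true, [1, 2, 3, 3, 4], [true, false, true, false, true]⟩, 18),
  (⟨true, [1, 2, 3, 3, 4], [true, false, false, true, true]⟩, 18),
  (⟨true, [1, 2, 3, 3, 2], [false, true, true, false, true]⟩, 18),
  (⟨true, [1, 2, 3, 3, 2], [false, true, false, true, true]⟩, 18),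
  (⟨true, [1, 2, 3, 4, 4], [true, true, true, false, false]⟩, 18),
  (⟨true, [1, 2, 3, 4, 5], [true, true, false, false, true]⟩, 18),
  (⟨true, [1, 2, 3, 4, 5], [true, false, true, true, false]⟩, 18),
  (⟨true, [1, 2, 3, 3, 2], [true, true, false, true, false]⟩, 8),
  (⟨true, [1, 2, 3, 3, 2], [true, false, false, true, true]⟩, 8),
  (⟨true, [1, 2, 3, 3, 2], [true, false, true, false, true]⟩, 8),
  (⟨false, [1, 2, 3, 3, 4], [true, true, true, true, false]⟩, 17),
  (⟨false, [1, 2, 3, 4, 2], [true, true, false, true, true]⟩, 17),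
  (⟨false, [1, 2, 3, 4, 5], [true, true, false, true, true]⟩, 17),
  (⟨false, [1, 2, 3, 4, 4], [true, true, false, true, true]⟩, 17),
  (⟨false, [1, 2, 3, 4, 5], [true, true, true, false, true]⟩, 17),
  (⟨false, [1, 2, 3, 3, 4], [true, false, true, true, true]⟩, 17),
  (⟨false, [1, 2, 3, 4, 4], [true, false, true, true, true]⟩, 17),
  (⟨false, [1, 2, 3, 4, 5], [true, false, true, true, true]⟩, 17),
  (⟨false, [1, 2, 3, 3, 2], [false, true, true, true, true]⟩, 27),
  (⟨false, [1, 2, 3, 3, 4], [false, true, true, true, true]⟩, 17),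
  (⟨false, [1, 2, 3, 4, 4], [false, true, true, true, true]⟩, 17),
  (⟨false, [1, 2, 3, 3, 2], [true, true, true, false, true]⟩, 17),
  (⟨false, [1, 2, 3, 3, 4], [true, true, true, false, true]⟩, 7),
  (⟨false, [1, 2, 3, 3, 2], [true, true, false, true, true]⟩, 17),
  (⟨false, [1, 2, 3, 3, 4], [true, true, false, true, true]⟩, 7),
  (⟨true, [1, 2, 3, 3, 2], [false, false, false, false, false]⟩, 26),
  (⟨true, [1, 2, 3, 3, 4], [false, false, false, false, false]⟩, 16),
  (⟨true, [1, 2, 3, 4, 2], [false, false, false, false, false]⟩, 16),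
  (⟨true, [1, 2, 3, 4, 5], [false, false, false, false, false]⟩, 6),
  (⟨true, [1, 2, 3, 4, 4], [false, false, false, false, false]⟩, 16),
  (⟨false, [1, 2, 3, 3, 2], [true, false, false, false, false]⟩, 25),
  (⟨false, [1, 2, 3, 3, 4], [true, false, false, false, false]⟩, 15),
  (⟨false, [1, 2, 3, 4, 2], [true, false, false, false, false]⟩, 15),
  (⟨false, [1, 2, 3, 4, 2], [false, true, false, false, false]⟩, 5),
  (⟨false, [1, 2, 3, 4, 4], [false, true, false, false, false]⟩, 15),
  (⟨true, [1, 2, 3, 3, 4], [true, true, false, false, false]⟩, 24),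
  (⟨true, [1, 2, 3, 4, 2], [true, false, true, false, false]⟩, 24),
  (⟨true, [1, 2, 3, 4, 2], [true, false, false, true, false]⟩, 24),
  (⟨true, [1, 2, 3, 3, 4], [true, false, false, false, true]⟩, 24),
  (⟨true, [1, 2, 3, 4, 5], [false, true, false, true, false]⟩, 24),
  (⟨true, [1, 2, 3, 3, 2], [true, true, false, false, false]⟩, 14),
  (⟨true, [1, 2, 3, 4, 5], [true, false, true, false, false]⟩, 24),
  (⟨true, [1, 2, 3, 4, 4], [true, false, false, true, false]⟩, 24),
  (⟨true, [1, 2, 3, 4, 5], [true, false, false, true, false]⟩, 24),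
  (⟨true, [1, 2, 3, 3, 2], [true, false, false, false, true]⟩, 14),
  (⟨true, [1, 2, 3, 4, 2], [false, true, true, false, false]⟩, 24),
  (⟨true, [1, 2, 3, 4, 2], [false, true, false, true, false]⟩, 24),
  (⟨true, [1, 2, 3, 4, 5], [true, true, false, false, false]⟩, 24),
  (⟨true, [1, 2, 3, 3, 2], [true, false, true, false, false]⟩, 14),
  (⟨true, [1, 2, 3, 3, 2], [true, false, false, true, false]⟩, 14),
  (⟨true, [1, 2, 3, 4, 4], [true, false, false, false, true]⟩, 24),
  (⟨true, [1, 2, 3, 4, 5], [true, false, false, false, true]⟩, 24),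
  (⟨true, [1, 2, 3, 3, 4], [false, true, false, true, false]⟩, 24),
  (⟨true, [1, 2, 3, 4, 2], [false, true, false, false, true]⟩, 24),
  (⟨true, [1, 2, 3, 4, 4], [false, true, false, false, true]⟩, 4),
  (⟨true, [1, 2, 3, 4, 2], [true, true, false, false, false]⟩, 14),
  (⟨true, [1, 2, 3, 3, 2], [false, true, true, false, false]⟩, 14),
  (⟨true, [1, 2, 3, 3, 2], [false, true, false, true, false]⟩, 4),
  (⟨true, [1, 2, 3, 4, 5], [false, true, false, false, true]⟩, 14),
  (⟨true, [1, 2, 3, 4, 4], [true, true, false, false, false]⟩, 24),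
  (⟨true, [1, 2, 3, 4, 4], [false, true, true, false, false]⟩, 24),
  (⟨false, [1, 2, 3, 4, 4], [true, true, false, true, false]⟩, 23),
  (⟨false, [1, 2, 3, 3, 2], [true, true, false, false, true]⟩, 23),
  (⟨false, [1, 2, 3, 3, 4], [true, true, false, false, true]⟩, 13),
  (⟨false, [1, 2, 3, 3, 2], [true, false, true, true, false]⟩, 23),
  (⟨false, [1, 2, 3, 4, 2], [true, false, true, true, false]⟩, 13),
  (⟨false, [1, 2, 3, 4, 4], [true, false, true, false, true]⟩, 23),
  (⟨false, [1, 2, 3, 3, 4], [false, true, true, true, false]⟩, 23),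
  (⟨false, [1, 2, 3, 4, 4], [false, true, false, true, true]⟩, 13),
  (⟨false, [1, 2, 3, 3, 4], [true, false, true, true, false]⟩, 23),
  (⟨false, [1, 2, 3, 3, 2], [false, true, true, true, false]⟩, 23),
  (⟨false, [1, 2, 3, 4, 2], [true, true, false, false, true]⟩, 23),
  (⟨false, [1, 2, 3, 4, 4], [true, true, false, false, true]⟩, 3),
  (⟨false, [1, 2, 3, 3, 2], [false, true, false, true, true]⟩, 23),
  (⟨false, [1, 2, 3, 3, 2], [true, true, true, false, false]⟩, 13),
  (⟨false, [1, 2, 3, 3, 2], [true, true, false, true, false]⟩, 3),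
  (⟨true, [1, 2, 3, 3, 4], [true, true, true, true, false]⟩, 22),
  (⟨true, [1, 2, 3, 4, 4], [true, true, true, true, false]⟩, 22),
  (⟨true, [1, 2, 3, 4, 2], [true, true, true, false, true]⟩, 22),
  (⟨true, [1, 2, 3, 4, 4], [true, true, true, false, true]⟩, 22),
  (⟨true, [1, 2, 3, 4, 2], [true, true, false, true, true]⟩, 22),
  (⟨true, [1, 2, 3, 4, 5], [true, true, false, true, true]⟩, 22),
  (⟨true, [1, 2, 3, 4, 4], [true, true, false, true, true]⟩, 12),
  (⟨true, [1, 2, 3, 4, 5], [true, true, true, false, true]⟩, 22),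
  (⟨true, [1, 2, 3, 3, 4], [true, false, true, true, true]⟩, 22),
  (⟨true, [1, 2, 3, 4, 5], [true, true, true, true, false]⟩, 22),
  (⟨true, [1, 2, 3, 4, 4], [true, false, true, true, true]⟩, 12),
  (⟨true, [1, 2, 3, 4, 5], [true, false, true, true, true]⟩, 22),
  (⟨true, [1, 2, 3, 3, 2], [false, true, true, true, true]⟩, 22),
  (⟨true, [1, 2, 3, 3, 4], [false, true, true, true, true]⟩, 22),
  (⟨true, [1, 2, 3, 4, 2], [false, true, true, true, true]⟩, 22),
  (⟨true, [1, 2, 3, 4, 4], [false, true, true, true, true]⟩, 12),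
  (⟨true, [1, 2, 3, 3, 2], [true, true, true, true, false]⟩, 22),
  (⟨true, [1, 2, 3, 4, 2], [true, true, true, true, false]⟩, 12),
  (⟨true, [1, 2, 3, 3, 2], [true, false, true, true, true]⟩, 22),
  (⟨true, [1, 2, 3, 3, 2], [true, true, true, false, true]⟩, 22),
  (⟨true, [1, 2, 3, 3, 4], [true, true, true, false, true]⟩, 12),
  (⟨true, [1, 2, 3, 3, 2], [true, true, false, true, true]⟩, 22),
  (⟨true, [1, 2, 3, 3, 4], [true, true, false, true, true]⟩, 2)]

theorem u1 : checkU 5 fanAdj 1 tU1 = true := by decide +kernel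
theorem u2 : checkU 5 fanAdj 2 tU2 = true := by decide +kernel
theorem u3 : checkU 5 fanAdj 3 tU3 = true := by decide +kernel
theorem u4 : checkU 5 fanAdj 4 tU4 = true := by decide +kernel
theorem u5 : checkU 5 fanAdj 5 tU5 = true := by decide +kernel
theorem l5 : checkL 5 fanAdj 5 tL5 = true := by decide +kernel

theorem fanAdj_iff : ∀ i j : Fin 5, fanAdj i j = true ↔ (graphOf 5 fanAdj).Adj i j := by
  intro i j
  have key : ∀ i j : Fin 5, fanAdj i j = true ↔ (i ≠ j ∧ (fanAdj i j = true ∨ fanAdj j i = true)) := by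
    decide
  exact key i j

theorem rel_start (k : ℕ) : Rel true (start (Fin 5) k) ⟨true, [0,0,0,0,0], [false,false,false,false,false]⟩ := by
  refine ⟨rfl, ⟨rfl, ?_⟩, rfl, ?_⟩
  · intro i
    fin_cases i <;> rfl
  · intro i
    fin_cases i <;> simp [start]

theorem bob1 : BobWinsWithin (graphOf 5 fanAdj) 30 true (start (Fin 5) 1) :=
  soundU u1 fanAdj_iff 30 (tU1.head (by decide)) (List.head_mem _) (by decide) (by decide) _ _
    (rel_start 1)
theorem bob2 : BobWinsWithin (graphOf 5 fanAdj) 30 true (start (Fin 5) 2) :=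
  soundU u2 fanAdj_iff 30 (tU2.head (by decide)) (List.head_mem _) (by decide) (by decide) _ _
    (rel_start 2)
theorem bob3 : BobWinsWithin (graphOf 5 fanAdj) 30 true (start (Fin 5) 3) :=
  soundU u3 fanAdj_iff 30 (tU3.head (by decide)) (List.head_mem _) (by decide) (by decide) _ _
    (rel_start 3)
theorem bob4 : BobWinsWithin (graphOf 5 fanAdj) 30 true (start (Fin 5) 4) :=
  soundU u4 fanAdj_iff 30 (tU4.head (by decide)) (List.head_mem _) (by decide) (by decide) _ _
    (rel_start 4)
theorem bob5 : BobWinsWithin (graphOf 5 fanAdj) 30 true (start (Fin 5) 5) :=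
  soundU u5 fanAdj_iff 30 (tU5.head (by decide)) (List.head_mem _) (by decide) (by decide) _ _
    (rel_start 5)
theorem alice5 {t : ℕ} (ht : t < 26) : ¬ BobWinsWithin (graphOf 5 fanAdj) t true (start (Fin 5) 5) :=
  soundL l5 fanAdj_iff t (tL5.head (by decide)) (List.head_mem _) ht _ _
    (rel_start 5)

end U405.Eternal
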